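import Mathlib

/-!
# Anticommutative 3-Engel algebras and nilpotency: definitions
-/

set_option autoImplicit false

universe u v

namespace Pool.H4.ENG

section
variable {A : Type v} (m : A → A → A)

/-- `Product m B n z`: the element `z` is a product of exactly `n` elements of `B`, with some
arrangement of parentheses; `m` is the multiplication. -/
inductive Product (B : A → Prop) : ℕ → A → Prop
  | single (x : A) : B x → Product B 1 x
  | mul (k l : ℕ) (x y : A) : Product B k x → Product B l y → Product B (k + l) (m x y)

/-- `B` is nilpotent: for some `N ≥ 1` every product of `N` elements of `B`, with any arrangement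
of parentheses, vanishes. -/
def Nilpotent [AddCommGroup A] (B : A → Prop) : Prop :=
  ∃ N, 1 ≤ N ∧ ∀ z, Product m B N z → z = 0

end

section
variable (F : Type u) {A : Type v} [Field F] [AddCommGroup A] [Module F A] (m : A → A → A)

/-- The multiplication `m` on the vector space `A` over `F` is bilinear, anticommutative
(`x x = 0`) and 3-Engel (`((x y) y) y = 0`). -/
def IsEngel : Prop :=
  (∀ x y z, m (x + y) z = m x z + m y z ∧ m x (y + z) = m x y + m x z) ∧
    (∀ (t : F) (x y : A), m (t • x) y = t • m x y ∧ m x (t • y) = t • m x y) ∧
    (∀ x, m x x = 0) ∧ ∀ x y, m (m (m x y) y) y = 0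

/-- The elements of the subalgebra generated by `s`. -/
inductive Generated (s : Set A) : A → Prop
  | mem (x : A) : x ∈ s → Generated s x
  | zero : Generated s 0
  | add (x y : A) : Generated s x → Generated s y → Generated s (x + y)
  | smul (t : F) (x : A) : Generated s x → Generated s (t • x)
  | mul (x y : A) : Generated s x → Generated s y → Generated s (m x y)

end

section
variable (F : Type u) [Field F]

/-- Every anticommutative 3-Engel algebra over `F` is locally nilpotent. -/
def LocallyNilpotent : Prop :=
  ∀ (A : Type v) [AddCommGroup A] [Module F A] (m : A → A → A), IsEngel F m →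
    ∀ s : Set A, s.Finite → Nilpotent m (Generated F m s)

/-- There is an anticommutative 3-Engel algebra over `F` with two elements which generate a
subalgebra that is not nilpotent. -/
def HasCounterexample : Prop :=
  ∃ (A : Type v) (_ : AddCommGroup A) (_ : Module F A) (m : A → A → A), IsEngel F m ∧
    ∃ x y, ¬ Nilpotent m (Generated F m {x, y})

end

end Pool.H4.ENG
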