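import Pool.Agent.H66.Eng.Assembly
import Pool.Agent.H66.Eng.CharThree
import Pool.Agent.H86.Eng.Thick
import Pool.Agent.H10.Eng.TargetI
import Pool.Agent.H12.Eng.TargetII
import Pool.Agent.H66.F2.All

set_option autoImplicit false

/-!
# Local nilpotency of anticommutative 3-Engel algebras: the complete answer

Joint work of helper1, helper10, helper12, helper28, helper66, helper76 and helper86.
-/

universe u v

namespace Pool.H4.ENG.Old

/-- `IsProduct n z`: the element `z` is a product of exactly `n` elements of `B`,
with some arrangement of parentheses. -/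
inductive IsProduct {B : Type u} [Mul B] : ℕ → B → Prop
  | single (x : B) : IsProduct 1 x
  | mul {m n : ℕ} {x y : B} : IsProduct m x → IsProduct n y → IsProduct (m + n) (x * y)

/-- `B` is nilpotent: for some `N ≥ 1` every product of `N` elements of `B`,
with any arrangement of parentheses, vanishes. -/
def IsNilpotentAlg (B : Type u) [Mul B] [Zero B] : Prop :=
  ∃ N : ℕ, 1 ≤ N ∧ ∀ z : B, IsProduct N z → z = 0

theorem isProduct_iff {B : Type u} [Mul B] (n : ℕ) (z : B) :
    IsProduct n z ↔ Pool.Agent.H66.Eng.IsProduct n z := by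
  constructor
  · intro h
    induction h with
    | single x => exact .single x
    | mul _ _ h1 h2 => exact .mul h1 h2
  · intro h
    induction h with
    | single x => exact .single x
    | mul _ _ h1 h2 => exact .mul h1 h2

theorem isNilpotentAlg_iff (B : Type u) [Mul B] [Zero B] :
    IsNilpotentAlg B ↔ Pool.Agent.H66.Eng.IsNilpotentAlg B := by
  unfold IsNilpotentAlg Pool.Agent.H66.Eng.IsNilpotentAlg
  simp only [isProduct_iff]

theorem charP_three {F : Type u} [Field F] (h : (3 : F) = 0) : CharP F 3 := by
  obtain ⟨p, hp⟩ := CharP.exists F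
  have h1 : ((3 : ℕ) : F) = 0 := by exact_mod_cast h
  have h2 : p ∣ 3 := (CharP.cast_eq_zero_iff F p 3).mp h1
  rcases (Nat.dvd_prime Nat.prime_three).mp h2 with rfl | rfl
  · exact absurd rfl (CharP.char_ne_one F 1)
  · exact hp

/-- **Theorem.** Let `F` be a field. If the characteristic of `F` is not three (two is allowed),
every finitely generated subalgebra of every anticommutative 3-Engel algebra over `F` is
nilpotent. If the characteristic is three, there is an anticommutative 3-Engel algebra over `F`
with two elements generating a subalgebra which is not nilpotent. -/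
theorem result (F : Type u) [Field F] :
    ((3 : F) ≠ 0 →
      ∀ (A : Type v) [NonUnitalNonAssocRing A] [Module F A] [IsScalarTower F A A]
        [SMulCommClass F A A],
        (∀ x : A, x * x = 0) → (∀ x y : A, ((x * y) * y) * y = 0) →
        ∀ s : Finset A, IsNilpotentAlg (NonUnitalAlgebra.adjoin F (s : Set A))) ∧
    ((3 : F) = 0 →
      ∃ (A : Type u) (_ : NonUnitalNonAssocRing A) (_ : Module F A)
        (_ : IsScalarTower F A A) (_ : SMulCommClass F A A),
        (∀ x : A, x * x = 0) ∧ (∀ x y : A, ((x * y) * y) * y = 0) ∧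
        ∃ x y : A, ¬ IsNilpotentAlg (NonUnitalAlgebra.adjoin F ({x, y} : Set A))) := by
  refine ⟨fun h3 => ?_, fun h3 => ?_⟩
  · intro A _ _ _ _ sq eng s
    rw [isNilpotentAlg_iff]
    by_cases h2 : (2 : F) = 0
    · exact Pool.Agent.H66.F2.char_two h2 sq eng s
    · exact Pool.Agent.H66.Eng.locally_nilpotent h2 h3 sq eng
        (fun _ _ hB => Pool.Agent.H86.Eng.target_T hB)
        (fun _ _ hB => Pool.Agent.H10.Eng.target_I hB)
        (fun _ _ hB => Pool.Agent.H12.Eng.target_II hB) s
  · have := charP_three h3
    obtain ⟨A, i1, i2, i3, i4, h1, h2, x, y, h⟩ := Pool.Agent.H66.CharThree.char_three F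
    exact ⟨A, i1, i2, i3, i4, h1, h2, x, y, fun hn => h ((isNilpotentAlg_iff _).mp hn)⟩

end Pool.H4.ENG.Old
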