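import Pool.Agent.H4.ENG.Defs
import Pool.Agent.H4.ENG.Old

/-! The statement over `Pool.H4.ENG` from the old one. -/

set_option autoImplicit false

universe u v

namespace Pool.H4.ENG

/-- The ring with multiplication `m`. -/
abbrev ringOf {A : Type v} [i : AddCommGroup A] (m : A → A → A)
    (h : ∀ x y z, m (x + y) z = m x z + m y z ∧ m x (y + z) = m x y + m x z) :
    NonUnitalNonAssocRing A :=
  { i with
    mul := m
    left_distrib := fun x y z => (h x y z).2
    right_distrib := fun x y z => (h x y z).1
    zero_mul := fun x => by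
      have h1 := (h 0 0 x).1
      rw [add_zero] at h1
      exact left_eq_add.1 h1
    mul_zero := fun x => by
      have h1 := (h x 0 0).2
      rw [add_zero] at h1
      exact left_eq_add.1 h1 }

section
variable {F : Type u} [Field F] {A : Type v} [NonUnitalNonAssocRing A] [Module F A]
  [IsScalarTower F A A] [SMulCommClass F A A]

theorem gen_iff (s : Set A) (x : A) :
    Generated F (fun x y : A => x * y) s x ↔ x ∈ NonUnitalAlgebra.adjoin F s := by
  constructor
  · intro h
    induction h with
    | mem x hx => exact NonUnitalAlgebra.subset_adjoin F hx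
    | zero => exact zero_mem _
    | add x y _ _ h1 h2 => exact add_mem h1 h2
    | smul t x _ h1 => exact SMulMemClass.smul_mem t h1
    | mul x y _ _ h1 h2 => exact mul_mem h1 h2
  · intro h
    induction h using NonUnitalAlgebra.adjoin_induction with
    | mem x hx => exact .mem x hx
    | zero => exact .zero
    | add x y _ _ h1 h2 => exact .add x y h1 h2
    | smul t x _ h1 => exact .smul t x h1
    | mul x y _ _ h1 h2 => exact .mul x y h1 h2

theorem prod_to (s : Set A) (n : ℕ) (z : A)
    (h : Product (fun x y : A => x * y) (Generated F (fun x y : A => x * y) s) n z) :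
    ∃ w : NonUnitalAlgebra.adjoin F s, (w : A) = z ∧ Old.IsProduct n w := by
  induction h with
  | single x hx => exact ⟨⟨x, (gen_iff s x).1 hx⟩, rfl, .single _⟩
  | mul k l x y _ _ h1 h2 =>
    obtain ⟨w1, e1, p1⟩ := h1
    obtain ⟨w2, e2, p2⟩ := h2
    exact ⟨w1 * w2, by rw [← e1, ← e2]; rfl, .mul p1 p2⟩

theorem prod_of (s : Set A) (n : ℕ) (w : NonUnitalAlgebra.adjoin F s)
    (h : Old.IsProduct n w) :
    Product (fun x y : A => x * y) (Generated F (fun x y : A => x * y) s) n (w : A) := by
  induction h with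
  | single x => exact .single _ ((gen_iff s _).2 x.2)
  | mul _ _ h1 h2 => exact .mul _ _ _ _ h1 h2

theorem nil_iff (s : Set A) :
    Nilpotent (fun x y : A => x * y) (Generated F (fun x y : A => x * y) s) ↔
      Old.IsNilpotentAlg (NonUnitalAlgebra.adjoin F s) := by
  constructor
  · rintro ⟨N, hN, h⟩
    exact ⟨N, hN, fun w hw => Subtype.ext (h w (prod_of s N w hw))⟩
  · rintro ⟨N, hN, h⟩
    refine ⟨N, hN, fun z hz => ?_⟩
    obtain ⟨w, rfl, hw⟩ := prod_to s N z hz
    rw [h w hw]
    rfl

end

theorem three_iff (F : Type u) [Field F] : ringChar F = 3 ↔ (3 : F) = 0 := by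
  have h := ringChar.spec F 3
  constructor
  · intro h1
    have := h.2 (by rw [h1])
    exact_mod_cast this
  · intro h1
    have h2 : ringChar F ∣ 3 := h.1 (by exact_mod_cast h1)
    rcases (Nat.dvd_prime Nat.prime_three).1 h2 with h3 | h3
    · exact absurd h3 (CharP.ringChar_ne_one)
    · exact h3

theorem main (F : Type u) [Field F] :
    (ringChar F ≠ 3 → LocallyNilpotent.{u, v} F) ∧
      (ringChar F = 3 → HasCounterexample.{u, u} F) := by
  rw [Ne, three_iff]
  refine ⟨fun h3 => ?_, fun h3 => ?_⟩
  · intro A _ _ m hm s hs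
    obtain ⟨h1, h2, h4, h5⟩ := hm
    letI : NonUnitalNonAssocRing A := ringOf m h1
    haveI : IsScalarTower F A A := ⟨fun t x y => (h2 t x y).1⟩
    haveI : SMulCommClass F A A := ⟨fun t x y => ((h2 t x y).2).symm⟩
    have key := (Old.result.{u, v} F).1 h3 A h4 h5 hs.toFinset
    rw [hs.coe_toFinset] at key
    exact (nil_iff s).2 key
  · obtain ⟨A, i1, i2, i3, i4, h1, h2, x, y, h⟩ := (Old.result.{u, u} F).2 h3
    refine ⟨A, inferInstance, i2, fun x y => x * y, ⟨fun x y z => ⟨add_mul x y z, mul_add x y z⟩,
      fun t x y => ⟨smul_mul_assoc t x y, mul_smul_comm t x y⟩, h1, h2⟩, x, y, fun hn => h ?_⟩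
    exact (nil_iff {x, y}).1 hn

end Pool.H4.ENG
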